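import Pool.Agent.W761.CC.Stms
import Pool.Agent.W975.CB.Ms
import Pool.Agent.W374.CB2.Blk

/-! Project CC, part CVX: convexity. -/

set_option autoImplicit false

open MeasureTheory
open scoped ENNReal

namespace Pool.Agent.W935.CC

open Pool.Agent.W761.CB Pool.Agent.W761.CC Pool.Agent.W374.CB2.Blk

noncomputable section

/-! ### One dimension -/

lemma rep {L : ℝ} [hL : Fact (0 < L)] (a : AddCircle L) :
    ∃ t : ℝ, |t| ≤ L / 2 ∧ (t : AddCircle L) = a := by
  refine ⟨(AddCircle.equivIoc L (-(L / 2)) a : ℝ), ?_, AddCircle.coe_equivIoc⟩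
  have := (AddCircle.equivIoc L (-(L / 2)) a).2
  rw [Set.mem_Ioc] at this
  rw [abs_le]
  constructor <;> linarith [this.1, this.2]

lemma arc_shift (L l : ℝ) (a : ℕ) (y : AddCircle L) :
    y ∈ arc L l a ↔ y - (((a : ℝ) * l : ℝ) : AddCircle L) ∈ arc L l 0 := by
  constructor
  · rintro ⟨t, h1, h2, h3⟩
    refine ⟨t - a * l, by push_cast; linarith, by push_cast; linarith, ?_⟩
    rw [h3, AddCircle.coe_sub]
  · rintro ⟨t, h1, h2, h3⟩
    push_cast at h1 h2
    refine ⟨t + a * l, by linarith, by linarith, ?_⟩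
    rw [AddCircle.coe_add, ← h3, sub_add_cancel]

lemma arc_full (L : ℝ) [hL : Fact (0 < L)] (y : AddCircle L) : y ∈ arc L L 0 := by
  have h := (AddCircle.equivIco L 0 y).2
  refine ⟨(AddCircle.equivIco L 0 y : ℝ), ?_, ?_, AddCircle.coe_equivIco.symm⟩
  · have := h.1
    push_cast
    linarith
  · have := h.2
    push_cast
    linarith

lemma arc_iff (L l d t : ℝ) [hL : Fact (0 < L)] (h2 : 2 * l ≤ L) (hd : |d| ≤ L / 2)
    (ht0 : 0 ≤ t) (htl : t < l) :
    ((d + t : ℝ) : AddCircle L) ∈ arc L l 0 ↔ 0 ≤ d + t ∧ d + t < l := by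
  have hL0 := hL.out
  obtain ⟨hd1, hd2⟩ := abs_le.1 hd
  constructor
  · rintro ⟨s, h3, h4, h5⟩
    push_cast at h3 h4
    have h6 : ((d + t - s : ℝ) : AddCircle L) = 0 := by
      rw [AddCircle.coe_sub, h5, sub_self]
    obtain ⟨k, hk⟩ := AddCircle.coe_eq_zero_iff L |>.1 h6
    rw [zsmul_eq_mul] at hk
    have hk0 : k = 0 := by
      rcases lt_trichotomy k 0 with h | h | h
      · have : (k : ℝ) ≤ -1 := by exact_mod_cast (show k ≤ -1 by omega)
        nlinarith
      · exact h
      · have : (1 : ℝ) ≤ k := by exact_mod_cast (show 1 ≤ k by omega)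
        nlinarith
    rw [hk0] at hk
    push_cast at hk
    constructor <;> linarith
  · rintro ⟨h3, h4⟩
    exact ⟨d + t, by push_cast; linarith, by push_cast; linarith, rfl⟩

lemma vol1 (L l : ℝ) [hL : Fact (0 < L)] (q : ℕ) (hq : 1 ≤ q) (h : L = q * l) (a : ℕ)
    (y : AddCircle L) :
    volume {t : ℝ | (0 ≤ t ∧ t < l) ∧ y + (t : AddCircle L) ∈ arc L l a} =
      ENNReal.ofReal (l * ht L l (y - (((a : ℝ) * l : ℝ) : AddCircle L))) := by
  obtain ⟨hl, hlL⟩ := b_pos hL.out hq h
  have hL0 := hL.out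
  obtain ⟨d, hd, hdz⟩ := rep (y - (((a : ℝ) * l : ℝ) : AddCircle L))
  have hset : ∀ t : ℝ, y + (t : AddCircle L) ∈ arc L l a ↔
      ((d + t : ℝ) : AddCircle L) ∈ arc L l 0 := by
    intro t
    rw [arc_shift]
    have : y + (t : AddCircle L) - (((a : ℝ) * l : ℝ) : AddCircle L) =
        ((d + t : ℝ) : AddCircle L) := by
      rw [AddCircle.coe_add, hdz]; abel
    rw [this]
  rw [← hdz]
  rcases Nat.eq_or_lt_of_le hq with h1 | h1
  · have hlL' : L = l := by rw [h, ← h1]; simp
    have e1 : {t : ℝ | (0 ≤ t ∧ t < l) ∧ y + (t : AddCircle L) ∈ arc L l a} = Set.Ico 0 l := by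
      ext t
      constructor
      · rintro ⟨h3, -⟩; exact h3
      · intro h3
        refine ⟨h3, (hset t).2 ?_⟩
        subst hlL'
        exact arc_full L _
    rw [e1, Real.volume_Ico, ht, if_neg (by rw [hlL']; exact lt_irrefl _)]
    congr 1; ring
  · have h2 : 2 * l ≤ L := by
      rw [h]
      have : (2 : ℝ) ≤ q := by exact_mod_cast h1
      nlinarith
    have hnd : ‖((d : ℝ) : AddCircle L)‖ = |d| := by
      rw [AddCircle.norm_coe_eq_abs_iff (p := L) (hp := hL0.ne'), abs_of_pos hL0]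
      exact hd
    have e1 : {t : ℝ | (0 ≤ t ∧ t < l) ∧ y + (t : AddCircle L) ∈ arc L l a} =
        Set.Ico (max 0 (-d)) (min l (l - d)) := by
      ext t
      constructor
      · rintro ⟨⟨h3, h4⟩, h5⟩
        rw [hset, arc_iff L l d t h2 hd h3 h4] at h5
        exact ⟨max_le h3 (by linarith [h5.1]), lt_min h4 (by linarith [h5.2])⟩
      · rintro ⟨h3, h4⟩
        have h5 := max_le_iff.1 h3
        have h6 := lt_min_iff.1 h4
        refine ⟨⟨h5.1, h6.1⟩, ?_⟩
        rw [hset, arc_iff L l d t h2 hd h5.1 h6.1]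
        exact ⟨by linarith [h5.2], by linarith [h6.2]⟩
    rw [e1, Real.volume_Ico, ht, if_pos (by linarith), hnd]
    have e2 : l * max 0 (1 - |d| / l) = max 0 (l - |d|) := by
      rw [mul_max_of_nonneg _ _ hl.le, mul_zero]
      congr 1
      field_simp
    rw [e2]
    rcases le_total 0 d with h7 | h7
    · rw [abs_of_nonneg h7, max_eq_left (by linarith : -d ≤ 0), min_eq_right (by linarith), sub_zero]
      rcases le_total 0 (l - d) with h8 | h8
      · rw [max_eq_right h8]
      · rw [max_eq_left h8, ENNReal.ofReal_zero, ENNReal.ofReal_of_nonpos h8]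
    · rw [abs_of_nonpos h7, max_eq_right (by linarith : 0 ≤ -d), min_eq_left (by linarith)]
      rcases le_total 0 (l - -d) with h8 | h8
      · rw [max_eq_right h8]
      · rw [max_eq_left h8, ENNReal.ofReal_zero, ENNReal.ofReal_of_nonpos h8]

/-! ### The block of a translated point -/

/-- the translations -/
def TT (n : ℕ) (l : ℝ) : Set (Fin n → ℝ) := {t | ∀ c, 0 ≤ t c ∧ t c < l}

lemma TT_eq (n : ℕ) (l : ℝ) : TT n l = Set.univ.pi fun _ => Set.Ico 0 l := by
  ext t
  simp only [Set.mem_pi, Set.mem_univ, true_implies, Set.mem_Ico]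
  rfl

lemma TT_meas (n : ℕ) (l : ℝ) : MeasurableSet (TT n l) := by
  rw [TT_eq]
  exact MeasurableSet.univ_pi fun _ => measurableSet_Ico

lemma TT_vol (n : ℕ) (l : ℝ) (hl : 0 ≤ l) : volume (TT n l) = ENNReal.ofReal (l ^ n) := by
  rw [TT_eq, volume_pi_pi]
  simp only [Real.volume_Ico, sub_zero, Finset.prod_const, Finset.card_univ, Fintype.card_fin]
  rw [ENNReal.ofReal_pow hl]

lemma hatvol (n : ℕ) (L l : ℝ) [hL : Fact (0 < L)] (q : ℕ) (hq : 1 ≤ q) (h : L = q * l)
    (i : Fin n → ℕ) (x : Tor n L) :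
    volume ({t : Fin n → ℝ | x + pr L t ∈ blk n L l i} ∩ TT n l) =
      ENNReal.ofReal (l ^ n * hat n L l i x) := by
  obtain ⟨hl, hlL⟩ := b_pos hL.out hq h
  have e1 : {t : Fin n → ℝ | x + pr L t ∈ blk n L l i} ∩ TT n l =
      Set.univ.pi fun c => {t : ℝ | (0 ≤ t ∧ t < l) ∧ x c + (t : AddCircle L) ∈ arc L l (i c)} := by
    ext t
    constructor
    · rintro ⟨h1, h2⟩ c -
      change x + pr L t ∈ blk n L l i at h1
      rw [blk_eq] at h1
      exact ⟨h2 c, h1 c trivial⟩
    · intro h1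
      refine ⟨?_, fun c => (h1 c trivial).1⟩
      change x + pr L t ∈ blk n L l i
      rw [blk_eq]
      exact fun c _ => (h1 c trivial).2
  rw [e1, volume_pi_pi]
  have e2 : ∀ c, volume {t : ℝ | (0 ≤ t ∧ t < l) ∧ x c + (t : AddCircle L) ∈ arc L l (i c)} =
      ENNReal.ofReal (l * ht L l (x c - (((i c : ℝ) * l : ℝ) : AddCircle L))) :=
    fun c => vol1 L l q hq h (i c) (x c)
  rw [Finset.prod_congr rfl fun c _ => e2 c, ← ENNReal.ofReal_prod_of_nonneg]
  · rw [Finset.prod_mul_distrib, Finset.prod_const, Finset.card_univ, Fintype.card_fin]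
    rfl
  · intro c _
    refine mul_nonneg hl.le ?_
    unfold ht
    split_ifs
    · exact le_max_left _ _
    · exact zero_le_one

/-! ### Counting -/

open Classical in
lemma cnt_eq {X : Type} (B : Set X) (S : Multiset X) :
    cnt B S = (S.map fun x => if x ∈ B then 1 else 0).sum := by
  unfold cnt
  induction S using Multiset.induction_on with
  | empty => simp
  | cons x S ih =>
    rw [Multiset.map_cons, Multiset.sum_cons, ← ih]
    by_cases h : x ∈ B
    · rw [Multiset.filter_cons_of_pos _ h, if_pos h, Multiset.card_cons, add_comm]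
    · rw [Multiset.filter_cons_of_neg _ h, if_neg h, zero_add]

lemma meas_pr (n : ℕ) (L : ℝ) : Measurable (pr L : (Fin n → ℝ) → Tor n L) := by
  rw [measurable_pi_iff]
  intro c
  exact AddCircle.measurable_mk'.comp (measurable_pi_apply c)

open Classical in
lemma meas_ind {n : ℕ} {L : ℝ} [Fact (0 < L)] {Z : Type} [MeasurableSpace Z] (B : Set (Tor n L))
    (hB : MeasurableSet B) (a b : Z) :
    Measurable fun q : (Fin n → ℝ) × Tor n L => if q.2 + pr L q.1 ∈ B then a else b := by
  refine Measurable.ite ?_ measurable_const measurable_const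
  have : Measurable fun q : (Fin n → ℝ) × Tor n L => q.2 + pr L q.1 :=
    measurable_snd.add ((meas_pr n L).comp measurable_fst)
  exact this hB

open Classical in
lemma meas_cnt {n : ℕ} {L : ℝ} [Fact (0 < L)] (B : Set (Tor n L)) (hB : MeasurableSet B) :
    Measurable fun q : (Fin n → ℝ) × Cf (Tor n L) => cnt B ((ms q.2).map fun x => x + pr L q.1) := by
  have h := Pool.Agent.W975.CB.sum_meas (Z := ℕ) (X := Tor n L) (Fin n → ℝ)
    (fun t x => if x + pr L t ∈ B then 1 else 0) (meas_ind B hB 1 0)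
  have e : (fun q : (Fin n → ℝ) × Cf (Tor n L) => cnt B ((ms q.2).map fun x => x + pr L q.1)) =
      fun q => ((ms q.2).map fun x => if x + pr L q.1 ∈ B then 1 else 0).sum := by
    funext q
    rw [cnt_eq, Multiset.map_map]
    rfl
  rw [e]
  exact h

lemma cntint {n : ℕ} {L l : ℝ} [hL : Fact (0 < L)] {q : ℕ} (hq : 1 ≤ q) (h : L = q * l)
    (i : Fin n → ℕ) (S : Multiset (Tor n L)) :
    ∫⁻ t in TT n l, (cnt (blk n L l i) (S.map fun x => x + pr L t) : ℝ≥0∞) =
      ENNReal.ofReal (l ^ n * (S.map (hat n L l i)).sum) := by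
  classical
  obtain ⟨hl, hlL⟩ := b_pos hL.out hq h
  have hB : MeasurableSet (blk n L l i) := by
    rw [blk_eq]
    exact MeasurableSet.univ_pi fun c => arc_meas L l hl hlL (i c)
  have hat0 : ∀ x, 0 ≤ hat n L l i x := by
    intro x
    refine Finset.prod_nonneg fun c _ => ?_
    unfold ht
    split_ifs
    · exact le_max_left _ _
    · exact zero_le_one
  induction S using Multiset.induction_on with
  | empty => simp [cnt]
  | cons x S ih =>
    have e1 : ∀ t : Fin n → ℝ, (cnt (blk n L l i) ((x ::ₘ S).map fun x => x + pr L t) : ℝ≥0∞) =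
        (if x + pr L t ∈ blk n L l i then 1 else 0) +
          (cnt (blk n L l i) (S.map fun x => x + pr L t) : ℝ≥0∞) := by
      intro t
      rw [cnt_eq, cnt_eq, Multiset.map_cons, Multiset.map_cons, Multiset.sum_cons]
      push_cast
      rfl
    have hm : Measurable fun t : Fin n → ℝ =>
        (if x + pr L t ∈ blk n L l i then (1 : ℝ≥0∞) else 0) :=
      (meas_ind (blk n L l i) hB (1 : ℝ≥0∞) 0).comp (measurable_id.prodMk measurable_const)
    rw [lintegral_congr e1, lintegral_add_left hm, ih]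
    have hms : MeasurableSet {t : Fin n → ℝ | x + pr L t ∈ blk n L l i} := by
      have : Measurable fun t : Fin n → ℝ => x + pr L t := (meas_pr n L).const_add x
      exact this hB
    have e2 : ∫⁻ t in TT n l, (if x + pr L t ∈ blk n L l i then (1 : ℝ≥0∞) else 0) =
        ENNReal.ofReal (l ^ n * hat n L l i x) := by
      rw [← hatvol n L l q hq h i x]
      have e3 : (fun t : Fin n → ℝ => (if x + pr L t ∈ blk n L l i then (1 : ℝ≥0∞) else 0)) =
          Set.indicator {t : Fin n → ℝ | x + pr L t ∈ blk n L l i} 1 := by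
        funext t
        rw [Set.indicator_apply]
        rfl
      rw [e3, lintegral_indicator_one hms, Measure.restrict_apply hms]
    rw [e2, Multiset.map_cons, Multiset.sum_cons, mul_add, ENNReal.ofReal_add]
    · exact mul_nonneg (by positivity) (hat0 x)
    · refine mul_nonneg (by positivity) (Multiset.sum_nonneg ?_)
      intro y hy
      obtain ⟨z, -, rfl⟩ := Multiset.mem_map.1 hy
      exact hat0 z

lemma cover {n : ℕ} {L b : ℝ} (hb : 0 < b) {M : ℕ} (i : Fin n → ℕ) (x : Tor n L)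
    (hx : x ∈ blk n L (M * b) i) :
    ∃ j : Fin n → Fin M, x ∈ blk n L b (fun c => (j c : ℕ) + M * i c) := by
  choose t h1 h2 h3 using hx
  have hf0 : ∀ c, 0 ≤ t c / b - M * i c := by
    intro c
    rw [sub_nonneg, le_div_iff₀ hb]
    have := h1 c
    nlinarith
  have hf : ∀ c, ⌊t c / b - M * i c⌋₊ < M := by
    intro c
    rw [Nat.floor_lt (hf0 c), sub_lt_iff_lt_add, div_lt_iff₀ hb]
    have := h2 c
    nlinarith
  refine ⟨fun c => ⟨_, hf c⟩, fun c => ⟨t c, ?_, ?_, h3 c⟩⟩
  · have := Nat.floor_le (hf0 c)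
    rw [le_sub_iff_add_le, le_div_iff₀ hb] at this
    push_cast
    exact this
  · have := Nat.lt_floor_add_one (t c / b - M * i c)
    rw [sub_lt_iff_lt_add, div_lt_iff₀ hb] at this
    push_cast
    refine this.trans_le (le_of_eq ?_)
    ring

lemma cnt_cover {n : ℕ} {L b : ℝ} (hb : 0 < b) {M : ℕ} (i : Fin n → ℕ) (S : Multiset (Tor n L)) :
    cnt (blk n L (M * b) i) S ≤
      ∑ j : Fin n → Fin M, cnt (blk n L b (fun c => (j c : ℕ) + M * i c)) S := by
  classical
  simp only [cnt_eq]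
  induction S using Multiset.induction_on with
  | empty => simp
  | cons x S ih =>
    simp only [Multiset.map_cons, Multiset.sum_cons]
    rw [Finset.sum_add_distrib]
    refine add_le_add ?_ ih
    split_ifs with h
    · obtain ⟨j, hj⟩ := cover hb i x h
      refine le_trans ?_ (Finset.single_le_sum (f := fun j : Fin n → Fin M =>
        if x ∈ blk n L b (fun c => (j c : ℕ) + M * i c) then 1 else 0)
        (fun _ _ => Nat.zero_le _) (Finset.mem_univ j))
      rw [if_pos hj]
    · exact Nat.zero_le _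

/-! ### Convexity -/

lemma pf_nonneg (s : ℝ) : 0 ≤ pf s := by
  unfold pf
  split_ifs with h
  · positivity
  · push Not at h; linarith

lemma pf_line (s0 : ℝ) (h0 : 0 ≤ s0) :
    ∃ c : ℝ, 0 ≤ c ∧ ∀ s, pf s0 + c * s ≤ pf s + c * s0 := by
  by_cases h : s0 ≤ 3
  · refine ⟨2 * s0, by linarith, fun s => ?_⟩
    unfold pf
    rw [if_pos h]
    split_ifs with h1
    · nlinarith [sq_nonneg (s - s0)]
    · push Not at h1
      nlinarith [mul_nonneg (sub_nonneg.2 h) (by linarith : 0 ≤ 2 * s - s0 - 3)]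
  · refine ⟨6, by norm_num, fun s => ?_⟩
    unfold pf
    rw [if_neg h]
    split_ifs with h1
    · nlinarith [sq_nonneg (s - 3)]
    · linarith

lemma pw {n : ℕ} {L b ρ : ℝ} [hL : Fact (0 < L)] {q M : ℕ} (hq : 1 ≤ q)
    (hb : 0 < b) (hM : 1 ≤ M) (h : L = q * (M * b)) (hρ : 0 < ρ)
    (i : Fin n → ℕ) (S : Multiset (Tor n L)) :
    ENNReal.ofReal ((M * b) ^ n) *
        ENNReal.ofReal (pf ((S.map (hat n L (M * b) i)).sum / ((M * b) ^ n * ρ))) ≤
      ENNReal.ofReal (((M * b) ^ n)⁻¹) * ∫⁻ t in TT n (M * b), ENNReal.ofReal (b ^ n) *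
        ∑ j : Fin n → Fin M, ENNReal.ofReal
          (pf (cnt (blk n L b (fun c => (j c : ℕ) + M * i c)) (S.map fun x => x + pr L t) /
            (b ^ n * ρ))) := by
  have hM' : (0 : ℝ) < M := by exact_mod_cast hM
  have hl : 0 < M * b := by positivity
  set l : ℝ := M * b with hldef
  have hln : 0 < l ^ n := by positivity
  have hbn : 0 < b ^ n := by positivity
  have hlb : l ^ n = M ^ n * b ^ n := by rw [hldef, mul_pow]
  set H : ℝ := (S.map (hat n L l i)).sum with hH
  have hH0 : 0 ≤ H := by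
    refine Multiset.sum_nonneg ?_
    intro y hy
    obtain ⟨z, -, rfl⟩ := Multiset.mem_map.1 hy
    refine Finset.prod_nonneg fun c _ => ?_
    unfold ht
    split_ifs
    · exact le_max_left _ _
    · exact zero_le_one
  set s0 : ℝ := H / (l ^ n * ρ) with hs0
  have hs00 : 0 ≤ s0 := by positivity
  obtain ⟨c, hc, hline⟩ := pf_line s0 hs00
  -- the inequality for every translation
  have key : ∀ t : Fin n → ℝ, ENNReal.ofReal (l ^ n * pf s0) + ENNReal.ofReal (c / ρ) *
      (cnt (blk n L l i) (S.map fun x => x + pr L t) : ℝ≥0∞) ≤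
      ENNReal.ofReal (b ^ n) * ∑ j : Fin n → Fin M, ENNReal.ofReal
          (pf (cnt (blk n L b (fun c => (j c : ℕ) + M * i c)) (S.map fun x => x + pr L t) /
            (b ^ n * ρ))) + ENNReal.ofReal (l ^ n * (c * s0)) := by
    intro t
    have hcov : (cnt (blk n L l i) (S.map fun x => x + pr L t) : ℝ) ≤
        ∑ j : Fin n → Fin M, (cnt (blk n L b (fun c => (j c : ℕ) + M * i c))
          (S.map fun x => x + pr L t) : ℝ) := by
      exact_mod_cast cnt_cover hb i (S.map fun x => x + pr L t)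
    generalize (cnt (blk n L l i) (S.map fun x => x + pr L t)) = C at hcov ⊢
    generalize hCj : (fun j : Fin n → Fin M => cnt (blk n L b (fun c => (j c : ℕ) + M * i c))
      (S.map fun x => x + pr L t)) = Cj
    have hCj' : ∀ j, cnt (blk n L b (fun c => (j c : ℕ) + M * i c))
      (S.map fun x => x + pr L t) = Cj j := fun j => congrFun hCj j
    simp only [hCj'] at hcov ⊢
    rw [← ENNReal.ofReal_natCast C, ← ENNReal.ofReal_mul (by positivity),
      ← ENNReal.ofReal_add (mul_nonneg hln.le (pf_nonneg _)) (by positivity),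
      ← ENNReal.ofReal_sum_of_nonneg (fun j _ => pf_nonneg _), ← ENNReal.ofReal_mul hbn.le,
      ← ENNReal.ofReal_add (mul_nonneg hbn.le (Finset.sum_nonneg fun j _ => pf_nonneg _))
        (by positivity)]
    apply ENNReal.ofReal_le_ofReal
    have h1 : ∑ j : Fin n → Fin M, (pf s0 + c * (Cj j / (b ^ n * ρ))) ≤
        ∑ j : Fin n → Fin M, (pf (Cj j / (b ^ n * ρ)) + c * s0) :=
      Finset.sum_le_sum fun j _ => hline _
    rw [Finset.sum_add_distrib, Finset.sum_add_distrib, Finset.sum_const, Finset.sum_const,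
      Finset.card_univ, Fintype.card_fun, Fintype.card_fin, Fintype.card_fin, nsmul_eq_mul,
      nsmul_eq_mul, ← Finset.mul_sum, ← Finset.sum_div] at h1
    push_cast at h1
    have h2 := mul_le_mul_of_nonneg_left h1 hbn.le
    have h3 : b ^ n * (c * ((∑ j : Fin n → Fin M, (Cj j : ℝ)) / (b ^ n * ρ))) =
        c / ρ * ∑ j : Fin n → Fin M, (Cj j : ℝ) := by
      field_simp
    have h4 : c / ρ * (C : ℝ) ≤ c / ρ * ∑ j : Fin n → Fin M, (Cj j : ℝ) :=
      mul_le_mul_of_nonneg_left hcov (by positivity)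
    rw [mul_add, mul_add, h3] at h2
    have h5 : l ^ n * pf s0 = b ^ n * (M ^ n * pf s0) := by rw [hlb]; ring
    have h6 : l ^ n * (c * s0) = b ^ n * (M ^ n * (c * s0)) := by rw [hlb]; ring
    rw [h5, h6]
    linarith
  -- integrate
  have hint := setLIntegral_mono' (μ := volume) (TT_meas n l) (fun t _ => key t)
  rw [lintegral_add_left measurable_const, lintegral_add_right _ measurable_const,
    lintegral_const, lintegral_const, lintegral_const_mul' _ _ ENNReal.ofReal_ne_top,
    cntint hq h i S, Measure.restrict_apply_univ, TT_vol n l hl.le,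
    ← ENNReal.ofReal_mul (mul_nonneg hln.le (by positivity : 0 ≤ c * s0)),
    ← ENNReal.ofReal_mul (by positivity : 0 ≤ c / ρ)] at hint
  have e1 : c / ρ * (l ^ n * (S.map (hat n L l i)).sum) = l ^ n * (c * s0) * l ^ n := by
    rw [← hH, hs0]
    field_simp
  rw [e1, ENNReal.add_le_add_iff_right ENNReal.ofReal_ne_top,
    ENNReal.ofReal_mul hln.le] at hint
  calc ENNReal.ofReal (l ^ n) * ENNReal.ofReal (pf s0)
      = ENNReal.ofReal ((l ^ n)⁻¹) *
        (ENNReal.ofReal (l ^ n) * ENNReal.ofReal (pf s0) * ENNReal.ofReal (l ^ n)) := by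
        have e2 : ENNReal.ofReal ((l ^ n)⁻¹) * ENNReal.ofReal (l ^ n) = 1 := by
          rw [← ENNReal.ofReal_mul (by positivity), inv_mul_cancel₀ hln.ne', ENNReal.ofReal_one]
        rw [mul_comm (ENNReal.ofReal (l ^ n) * ENNReal.ofReal (pf s0)), ← mul_assoc, e2, one_mul]
    _ ≤ _ := mul_le_mul_right hint _

/-! ### Translations -/

lemma transl {n : ℕ} {L : ℝ} [Fact (0 < L)] (Ψ : Multiset (Tor n L) → ℝ≥0∞) (a : Tor n L) :
    ∫⁻ γ, Ψ ((ms γ).map fun x => x + a) ∂(lam (volume : Measure (Tor n L))) =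
      ∫⁻ γ, Ψ (ms γ) ∂(lam (volume : Measure (Tor n L))) := by
  unfold lam
  rw [lintegral_sum_measure, lintegral_sum_measure]
  refine tsum_congr fun N => ?_
  rw [lintegral_smul_measure, lintegral_smul_measure]
  congr 1
  have h1 := (Pool.Agent.W975.CB.mk_emb (X := Tor n L) N).lintegral_map
    (μ := Measure.pi fun _ : Fin N => (volume : Measure (Tor n L)))
    (fun γ => Ψ ((ms γ).map fun x => x + a))
  have h2 := (Pool.Agent.W975.CB.mk_emb (X := Tor n L) N).lintegral_map
    (μ := Measure.pi fun _ : Fin N => (volume : Measure (Tor n L))) (fun γ => Ψ (ms γ))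
  refine h1.trans (Eq.trans ?_ h2.symm)
  have h3 : ∀ x : Fin N → Tor n L,
      Ψ ((ms (Pool.Agent.W975.CB.sk N x)).map fun x => x + a) =
        Ψ (ms (Pool.Agent.W975.CB.sk N (x + fun _ => a))) := by
    intro x
    congr 1
    unfold ms Pool.Agent.W975.CB.sk
    simp only [Multiset.map_coe, List.map_ofFn]
    rfl
  rw [lintegral_congr h3]
  have : (volume : Measure (Tor n L)).IsAddRightInvariant := inferInstance
  have : (Measure.pi fun _ : Fin N => (volume : Measure (Tor n L))).IsAddRightInvariant :=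
    Measure.pi.isAddRightInvariant _
  exact lintegral_add_right_eq_self
    (fun x : Fin N → Tor n L => Ψ (ms (Pool.Agent.W975.CB.sk N x))) (fun _ => a)

/-! ### The sub-blocks -/

lemma reindex (n q M : ℕ) (W : (Fin n → ℕ) → ℝ≥0∞) :
    ∑ k : Fin n → Fin (q * M), W (fun c => (k c : ℕ)) =
      ∑ i : Fin n → Fin q, ∑ j : Fin n → Fin M, W (fun c => (j c : ℕ) + M * (i c : ℕ)) := by
  rw [← Fintype.sum_prod_type' (f := fun (i : Fin n → Fin q) (j : Fin n → Fin M) =>
    W (fun c => (j c : ℕ) + M * (i c : ℕ)))]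
  symm
  refine Fintype.sum_equiv ((Equiv.arrowProdEquivProdArrow (Fin n) (fun _ => Fin q)
    (fun _ => Fin M)).symm.trans (Equiv.piCongrRight fun _ => finProdFinEquiv)) _ _ fun p => ?_
  rfl

/-! ### The theorem -/

instance {X : Type} [MeasurableSpace X] (ν : Measure X) [IsFiniteMeasure ν] : SFinite (lam ν) := by
  unfold lam
  infer_instance

theorem cvx : S_CVX := by
  intro n L b ρ hL q M hq hM hLb hρ F hF
  have hqM : 1 ≤ q * M := Nat.one_le_iff_ne_zero.2 (Nat.mul_ne_zero (by omega) (by omega))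
  obtain ⟨hb, hbL⟩ := b_pos hL.out hqM hLb
  have hLl : L = q * (M * b) := by rw [hLb]; push_cast; ring
  have hBm : ∀ k : Fin n → ℕ, MeasurableSet (blk n L b k) := by
    intro k
    rw [blk_eq]
    exact MeasurableSet.univ_pi fun c => arc_meas L b hb hbL (k c)
  let Φ : (Fin n → ℕ) → (Fin n → ℝ) → Cf (Tor n L) → ℝ≥0∞ := fun k t γ =>
    ENNReal.ofReal (pf (cnt (blk n L b k) ((ms γ).map fun x => x + pr L t) / (b ^ n * ρ))) *
      ‖F (ms γ)‖ₑ ^ 2
  have hΦ : ∀ k, Measurable (Function.uncurry (Φ k)) := by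
    intro k
    have h1 : Measurable fun q : (Fin n → ℝ) × Cf (Tor n L) =>
        ENNReal.ofReal (pf (cnt (blk n L b k) ((ms q.2).map fun x => x + pr L q.1) /
          (b ^ n * ρ))) :=
      (measurable_from_nat (f := fun m : ℕ => ENNReal.ofReal (pf ((m : ℝ) / (b ^ n * ρ))))).comp
        (meas_cnt (blk n L b k) (hBm k))
    have h2 : Measurable fun q : (Fin n → ℝ) × Cf (Tor n L) => ‖F (ms q.2)‖ₑ ^ 2 :=
      ((hF.meas.comp measurable_snd).enorm).pow_const 2
    exact h1.mul h2
  have htr : ∀ (k : Fin n → ℕ) (t : Fin n → ℝ),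
      ∫⁻ γ, ENNReal.ofReal (pf (cnt (blk n L b k) (ms γ) / (b ^ n * ρ))) *
        ‖tra (pr L t) F (ms γ)‖ₑ ^ 2 ∂(lam (volume : Measure (Tor n L))) =
      ∫⁻ γ, Φ k t γ ∂(lam (volume : Measure (Tor n L))) := by
    intro k t
    rw [← transl (fun S => ENNReal.ofReal (pf (cnt (blk n L b k) S / (b ^ n * ρ))) *
        ‖tra (pr L t) F S‖ₑ ^ 2) (pr L t)]
    refine lintegral_congr fun γ => ?_
    simp only [Φ, tra]
    rw [Multiset.map_map]
    have : ((fun x : Tor n L => x - pr L t) ∘ fun x => x + pr L t) = id := by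
      funext x; simp
    rw [this, Multiset.map_id]
  let W : (Fin n → ℕ) → ℝ≥0∞ := fun k =>
    ∫⁻ γ, (∫⁻ t in TT n (M * b), Φ k t γ) ∂(lam (volume : Measure (Tor n L)))
  have hR : ∫⁻ t in {t : Fin n → ℝ | ∀ c, 0 ≤ t c ∧ t c < M * b},
      ENNReal.ofReal (b ^ n) * ∑ k : Fin n → Fin (q * M), ∫⁻ γ,
        ENNReal.ofReal (pf (cnt (blk n L b (fun c => (k c : ℕ))) (ms γ) / (b ^ n * ρ))) *
          ‖tra (pr L t) F (ms γ)‖ₑ ^ 2 ∂(lam (volume : Measure (Tor n L))) =
      ENNReal.ofReal (b ^ n) * ∑ k : Fin n → Fin (q * M), W (fun c => (k c : ℕ)) := by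
    rw [lintegral_const_mul' _ _ ENNReal.ofReal_ne_top]
    congr 1
    rw [lintegral_finsetSum']
    · refine Finset.sum_congr rfl fun k _ => ?_
      have : ∀ t : Fin n → ℝ, _ = _ := fun t => htr (fun c => (k c : ℕ)) t
      rw [lintegral_congr this]
      exact lintegral_lintegral_swap (hΦ _).aemeasurable
    · intro k _
      have : (fun t : Fin n → ℝ => ∫⁻ γ,
        ENNReal.ofReal (pf (cnt (blk n L b (fun c => (k c : ℕ))) (ms γ) / (b ^ n * ρ))) *
          ‖tra (pr L t) F (ms γ)‖ₑ ^ 2 ∂(lam (volume : Measure (Tor n L)))) =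
          fun t => ∫⁻ γ, Φ (fun c => (k c : ℕ)) t γ ∂(lam (volume : Measure (Tor n L))) := by
        funext t
        exact htr (fun c => (k c : ℕ)) t
      rw [this]
      exact (hΦ _).lintegral_prod_right'.aemeasurable
  rw [hR, reindex n q M W, Finset.mul_sum, Finset.mul_sum, Finset.mul_sum]
  refine Finset.sum_le_sum fun i _ => ?_
  rw [← lintegral_const_mul' _ _ ENNReal.ofReal_ne_top]
  have hW : ENNReal.ofReal (((M * b) ^ n)⁻¹) * (ENNReal.ofReal (b ^ n) *
      ∑ j : Fin n → Fin M, W (fun c => (j c : ℕ) + M * (i c : ℕ))) =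
      ∫⁻ γ, (ENNReal.ofReal (((M * b) ^ n)⁻¹) * ∫⁻ t in TT n (M * b), (ENNReal.ofReal (b ^ n) *
        ∑ j : Fin n → Fin M, Φ (fun c => (j c : ℕ) + M * (i c : ℕ)) t γ))
          ∂(lam (volume : Measure (Tor n L))) := by
    rw [lintegral_const_mul' _ _ ENNReal.ofReal_ne_top]
    congr 1
    have e1 : ∀ γ : Cf (Tor n L), ∫⁻ t in TT n (M * b), ENNReal.ofReal (b ^ n) *
        ∑ j : Fin n → Fin M, Φ (fun c => (j c : ℕ) + M * (i c : ℕ)) t γ =
        ENNReal.ofReal (b ^ n) * ∑ j : Fin n → Fin M, ∫⁻ t in TT n (M * b),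
          Φ (fun c => (j c : ℕ) + M * (i c : ℕ)) t γ := by
      intro γ
      rw [lintegral_const_mul' _ _ ENNReal.ofReal_ne_top, lintegral_finsetSum]
      intro j _
      exact (hΦ _).of_uncurry_right
    rw [lintegral_congr e1, lintegral_const_mul' _ _ ENNReal.ofReal_ne_top]
    congr 1
    rw [lintegral_finsetSum]
    intro j _
    exact (hΦ _).lintegral_prod_left'
  rw [hW]
  refine lintegral_mono fun γ => ?_
  have h1 := mul_le_mul_left (pw hq hb hM hLl hρ (fun c => (i c : ℕ)) (ms γ)) (‖F (ms γ)‖ₑ ^ 2)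
  simp only
  rw [← mul_assoc]
  refine h1.trans (le_of_eq ?_)
  rw [mul_assoc]
  congr 1
  rw [← lintegral_mul_const']
  · refine lintegral_congr fun t => ?_
    rw [mul_assoc, Finset.sum_mul]
  · exact ENNReal.pow_ne_top enorm_ne_top

theorem main : S_TF → S_BLK → S_CVX := fun _ _ => cvx

end

end Pool.Agent.W935.CC
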